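import Pool.Agent.N983.RT.UNQ
import Pool.Agent.U136.DS.Stm

set_option autoImplicit false

/-! Part UNQD: uniqueness of smooth solutions with a dispersive term (helper208, after
`Pool.Agent.N983.RT.UNQ` of helper477). -/

namespace Pool.Agent.U208.DS

open Filter Topology Finset Pool.Agent.N983.RT Pool.Agent.U136.DS
open scoped ComplexConjugate

noncomputable section

theorem arr_one : Arr one := by
  refine ⟨fun _ _ _ => rfl, fun _ _ _ => rfl, fun _ _ _ => rfl, fun _ _ _ => ?_⟩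
  simp [one]

/-- the time derivative of the difference -/
def dd (g : Wv → Wv → Wv → ℝ) (ν : ℝ) (lam : Wv → ℝ) (u v : Fld) (m : Wv) (j : Fin 3) : ℂ :=
  open Classical in if m = 0 then 0 else rhsD g ν lam u m j - rhsD g ν lam v m j

theorem dd_deriv {g : Wv → Wv → Wv → ℝ} {ν : ℝ} {lam : Wv → ℝ} {u v : ℝ → Fld}
    (hu : IsSolD g ν lam u) (hv : IsSolD g ν lam v) (t : ℝ) (ht : 0 ≤ t) (m : Wv) (j : Fin 3) :
    HasDerivWithinAt (fun t => (u t - v t) m j) (dd g ν lam (u t) (v t) m j) (Set.Ici 0) t := by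
  unfold dd
  split_ifs with hm
  · subst hm
    have h1 : ∀ s ∈ Set.Ici (0 : ℝ), (u s - v s) 0 j = 0 := by
      intro s hs
      show u s 0 j - v s 0 j = 0
      rw [(hu.adm s hs).zero, (hv.adm s hs).zero]
      simp
    exact (hasDerivWithinAt_const t (Set.Ici (0 : ℝ)) (0 : ℂ)).congr h1 (h1 t ht)
  · exact (hu.eqn t ht m hm j).sub (hv.eqn t ht m hm j)

theorem dd_re (g : Wv → Wv → Wv → ℝ) (ν : ℝ) (lam : Wv → ℝ) (u v : Fld) (m : Wv) (j : Fin 3) :
    (conj ((u - v) m j) * dd g ν lam u v m j).re =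
      (conj ((u - v) m j) * unq_d g ν 1 u v m j).re := by
  unfold dd unq_d
  split_ifs with hm
  · rfl
  · have h4 : conj ((u - v) m j) * (u - v) m j = ((‖(u - v) m j‖ ^ 2 : ℝ) : ℂ) := by
      rw [← Complex.normSq_eq_conj_mul_self, Complex.normSq_eq_norm_sq]
    have h5 : conj ((u - v) m j) * (rhsD g ν lam u m j - rhsD g ν lam v m j) =
        conj ((u - v) m j) * (rhs g ν 1 u m j - rhs g ν 1 v m j) -
          Complex.I * ((lam m * ‖(u - v) m j‖ ^ 2 : ℝ) : ℂ) := by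
      unfold rhsD
      have h6 : (u - v) m j = u m j - v m j := rfl
      push_cast at h4 ⊢
      rw [← h4, h6]
      ring
    rw [h5, Complex.sub_re]
    have h7 : (Complex.I * ((lam m * ‖(u - v) m j‖ ^ 2 : ℝ) : ℂ)).re = 0 := by
      rw [Complex.mul_re, Complex.ofReal_im, Complex.I_re]
      ring
    rw [h7, sub_zero]

theorem dd_deriv_E {g : Wv → Wv → Wv → ℝ} {ν : ℝ} {lam : Wv → ℝ} {u v : ℝ → Fld}
    (hu : IsSolD g ν lam u) (hv : IsSolD g ν lam v) (n : ℕ) (t : ℝ) (ht : 0 ≤ t) :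
    HasDerivWithinAt (fun t => unq_E n (u t - v t))
      (∑ m ∈ cub n, ∑ j, 2 * (conj ((u t - v t) m j) * unq_d g ν 1 (u t) (v t) m j).re)
      (Set.Ici 0) t := by
  unfold unq_E
  refine HasDerivWithinAt.fun_sum fun m _ => HasDerivWithinAt.fun_sum fun j _ => ?_
  have h1 := (dd_deriv hu hv t ht m j).norm_sq
  rw [Complex.inner] at h1
  rw [← dd_re g ν lam]
  simpa only [mul_comm] using h1

theorem t_UNQD : S_UNQD := by
  intro hS ν lam hν _ u v hu hv h0 T hT
  obtain ⟨g, hgd⟩ : ∃ g : Wv → Wv → Wv → ℝ, g = one := ⟨_, rfl⟩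
  have hg : Arr g := hgd ▸ arr_one
  rw [← hgd] at hu hv
  obtain ⟨α, hα⟩ : ∃ α : ℝ, α = 1 := ⟨_, rfl⟩
  have hS' : Summable unq_q := hS
  obtain ⟨C1, hC1⟩ := hu.decay T 4
  obtain ⟨C2, hC2⟩ := hv.decay T 4
  obtain ⟨D, hD⟩ : ∃ D : ℝ, D = 3 * C1 + 3 * C2 := ⟨_, rfl⟩
  have hC10 : 0 ≤ C1 :=
    le_trans (mul_nonneg (pow_nonneg (by linarith [unq_W 0]) 4) (norm_nonneg _))
      (hC1 0 le_rfl hT 0 0)
  have hC20 : 0 ≤ C2 :=
    le_trans (mul_nonneg (pow_nonneg (by linarith [unq_W 0]) 4) (norm_nonneg _))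
      (hC2 0 le_rfl hT 0 0)
  have hGu : ∀ t, 0 ≤ t → t ≤ T → unq_G D (u t) := by
    intro t h1 h2 k
    unfold unq_a
    rw [Finset.mul_sum]
    refine (Finset.sum_le_sum fun j _ => hC1 t h1 h2 k j).trans ?_
    simp
    linarith
  have hGv : ∀ t, 0 ≤ t → t ≤ T → unq_G D (v t) := by
    intro t h1 h2 k
    unfold unq_a
    rw [Finset.mul_sum]
    refine (Finset.sum_le_sum fun j _ => hC2 t h1 h2 k j).trans ?_
    simp
    linarith
  have hGw : ∀ t, 0 ≤ t → t ≤ T → unq_G D (u t - v t) := by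
    intro t h1 h2 k
    unfold unq_a
    rw [Finset.mul_sum]
    have h3 : ∀ j, (1 + nsq k) ^ 4 * ‖(u t - v t) k j‖ ≤ C1 + C2 := by
      intro j
      have h4 : ‖(u t - v t) k j‖ ≤ ‖u t k j‖ + ‖v t k j‖ := norm_sub_le _ _
      have h5 := hC1 t h1 h2 k j
      have h6 := hC2 t h1 h2 k j
      have h7 : 0 ≤ (1 + nsq k) ^ 4 := pow_nonneg (by linarith [unq_W k]) 4
      nlinarith
    refine (Finset.sum_le_sum fun j _ => h3 j).trans ?_
    simp
    linarith
  have hD0 : 0 ≤ D := by linarith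
  have hσ : 0 ≤ ∑' k, unq_q k := tsum_nonneg unq_q_nonneg
  obtain ⟨σ, hσd⟩ : ∃ σ : ℝ, σ = ∑' k, unq_q k := ⟨_, rfl⟩
  rw [← hσd] at hσ
  obtain ⟨K, hK⟩ : ∃ K : ℝ, K = 6 * D * σ + 4 * D ^ 3 * σ := ⟨_, rfl⟩
  have hK1 : 0 ≤ 6 * D * σ := by positivity
  have hK2 : 0 ≤ 4 * D ^ 3 * σ := by positivity
  -- the energy estimate
  have key : ∀ n : ℕ, unq_E n (u T - v T) ≤ (σ - ∑ k ∈ cub n, unq_q k) * Real.exp (K * T) := by
    intro n
    have hτ : 0 ≤ σ - ∑ k ∈ cub n, unq_q k := by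
      rw [hσd]
      exact sub_nonneg.2 (hS'.sum_le_tsum _ fun k _ => unq_q_nonneg k)
    obtain ⟨τ, hτd⟩ : ∃ τ : ℝ, τ = σ - ∑ k ∈ cub n, unq_q k := ⟨_, rfl⟩
    rw [← hτd] at hτ ⊢
    obtain ⟨E', hE'⟩ : ∃ E' : ℝ → ℝ, ∀ t, E' t = ∑ m ∈ cub n, ∑ j,
      2 * (conj ((u t - v t) m j) * unq_d g ν α (u t) (v t) m j).re := ⟨_, fun _ => rfl⟩
    have hder : ∀ t, 0 ≤ t → HasDerivWithinAt (fun t => unq_E n (u t - v t)) (E' t)
        (Set.Ici 0) t := by
      intro t ht
      rw [hE']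
      rw [hα]
      exact dd_deriv_E hu hv n t ht
    have hbd : ∀ t, 0 ≤ t → t ≤ T → E' t ≤ K * (unq_E n (u t - v t) + τ) := by
      intro t h1 h2
      have hE0 : 0 ≤ unq_E n (u t - v t) :=
        Finset.sum_nonneg fun _ _ => Finset.sum_nonneg fun _ _ => sq_nonneg _
      have h3 := unq_static hS' hg (hu.adm t h1) (hGu t h1 h2) (hGv t h1 h2) (hGw t h1 h2) n
      rw [← hσd, ← hτd] at h3
      have h4 : E' t ≤ 2 * (-Complex.I * ∑ m ∈ cub n, ∑ j, conj ((u t - v t) m j) *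
          (conv g (u t) m j - conv g (v t) m j)).re := by
        rw [hE', Finset.mul_sum (cub n), Complex.re_sum, Finset.mul_sum]
        refine Finset.sum_le_sum fun m _ => ?_
        rw [← Finset.mul_sum]
        exact mul_le_mul_of_nonneg_left (unq_energy hν (hu.adm t h1) (hv.adm t h1) m) zero_le_two
      rw [hK]
      nlinarith [mul_nonneg hK2 hE0, mul_nonneg hK1 hτ]
    have hh : ∀ t, 0 ≤ t → HasDerivWithinAt
        (fun t => (unq_E n (u t - v t) + τ) * Real.exp (-(K * t)))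
        (E' t * Real.exp (-(K * t)) + (unq_E n (u t - v t) + τ) *
          (Real.exp (-(K * t)) * (-(K * 1)))) (Set.Ici 0) t := by
      intro t ht
      have h1 : HasDerivWithinAt (fun t : ℝ => Real.exp (-(K * t)))
          (Real.exp (-(K * t)) * (-(K * 1))) (Set.Ici 0) t :=
        (((hasDerivAt_id t).const_mul K).fun_neg.exp).hasDerivWithinAt
      exact ((hder t ht).add_const τ).mul h1
    have hanti : AntitoneOn (fun t => (unq_E n (u t - v t) + τ) * Real.exp (-(K * t)))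
        (Set.Icc 0 T) := by
      refine antitoneOn_of_deriv_nonpos (convex_Icc 0 T) ?_ ?_ ?_
      · intro t ht
        exact ((hh t ht.1).continuousWithinAt).mono Set.Icc_subset_Ici_self
      · intro t ht
        rw [interior_Icc] at ht
        exact ((hh t ht.1.le).hasDerivAt (Ici_mem_nhds ht.1)).differentiableAt.differentiableWithinAt
      · intro t ht
        rw [interior_Icc] at ht
        rw [((hh t ht.1.le).hasDerivAt (Ici_mem_nhds ht.1)).deriv]
        have h1 := hbd t ht.1.le ht.2.le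
        have h2 := Real.exp_pos (-(K * t))
        nlinarith
    have h1 := hanti (Set.left_mem_Icc.2 hT) (Set.right_mem_Icc.2 hT) hT
    have h2 : unq_E n (u 0 - v 0) = 0 := by
      rw [h0, sub_self]
      simp [unq_E]
    have h3 : (unq_E n (u T - v T) + τ) * Real.exp (-(K * T)) ≤
        (unq_E n (u 0 - v 0) + τ) * Real.exp (-(K * 0)) := h1
    rw [h2, mul_zero, neg_zero, Real.exp_zero, mul_one, zero_add] at h3
    have h4 := Real.exp_pos (K * T)
    have h5 : Real.exp (-(K * T)) * Real.exp (K * T) = 1 := by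
      rw [← Real.exp_add]
      simp
    have h6 : unq_E n (u T - v T) + τ ≤ τ * Real.exp (K * T) := by
      have h7 := mul_le_mul_of_nonneg_right h3 h4.le
      rwa [mul_assoc, h5, mul_one] at h7
    linarith
  -- the limit
  have hlim : Tendsto (fun n : ℕ => (σ - ∑ k ∈ cub n, unq_q k) * Real.exp (K * T)) atTop
      (𝓝 ((σ - σ) * Real.exp (K * T))) := by
    refine Tendsto.mul_const _ (Tendsto.const_sub _ ?_)
    rw [hσd]
    exact hS'.hasSum.comp unq_cub
  rw [sub_self, zero_mul] at hlim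
  funext m j
  have h1 : ∀ᶠ n : ℕ in atTop, m ∈ cub n := by
    have h2 := unq_cub.eventually (eventually_ge_atTop ({m} : Finset Wv))
    refine h2.mono fun n hn => ?_
    exact hn (Finset.mem_singleton_self m)
  have h3 : ‖(u T - v T) m j‖ ^ 2 ≤ 0 := by
    refine ge_of_tendsto hlim (h1.mono fun n hn => le_trans ?_ (key n))
    unfold unq_E
    refine le_trans ?_ (Finset.single_le_sum (f := fun m => ∑ j, ‖(u T - v T) m j‖ ^ 2)
      (fun _ _ => Finset.sum_nonneg fun _ _ => sq_nonneg _) hn)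
    exact Finset.single_le_sum (f := fun j => ‖(u T - v T) m j‖ ^ 2)
      (fun _ _ => sq_nonneg _) (Finset.mem_univ j)
  have h4 : (u T - v T) m j = 0 := by
    have h5 : ‖(u T - v T) m j‖ = 0 := by
      have := norm_nonneg ((u T - v T) m j)
      nlinarith
    exact norm_eq_zero.1 h5
  have h6 : u T m j - v T m j = 0 := h4
  exact sub_eq_zero.1 h6

end

end Pool.Agent.U208.DS
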